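import Pool.Agent.Q34.GB
import Mathlib.Tactic.IntervalCases

set_option autoImplicit false

namespace Pool.Agent.Results.MP_0a3b9a_nt.FailsAtEleven

open Pool.Agent.Q34

/-- Legendre symbol of the residue modulo `p` of the rational number `r` (for denominator prime
to `p`): `(num * den / p)` -/
def legQ (r : ℚ) (p : ℕ) : ℤ := jacobiSym (r.num * r.den) p

/-- `S_1(p) = ∑_{k<p} C(-1/3,k) C(-1/6,k) (27/2)^k` -/
def S1 (p : ℕ) : ℚ := hs (-1/3) (-1/6) (27/2) p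

/-- `S_2(p) = ∑_{k<p} C(-2/3,k) C(-5/6,k) (27/2)^k` -/
def S2 (p : ℕ) : ℚ := hs (-2/3) (-5/6) (27/2) p

/-- `ε_p = 1` if `p ≡ 1 (mod 3)`, `ε_p = -25/2` if `p ≡ 2 (mod 3)` -/
def eps (p : ℕ) : ℚ := if p % 3 = 1 then 1 else -25/2

/-- The right side `R(p)` of the problem. -/
def R (p : ℕ) (c d : ℤ) : ℚ :=
  if p % 24 = 1 ∨ p % 24 = 19 then
    (-1) ^ (p / 8) * legQ (-2 - c / d) p * (2 * c - p / (2 * c))
  else (-1) ^ (p / 8) * legQ (2 + c / d) p * (10 * d - 5 * p / (4 * d))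

/-- The assertion of Q1 for the prime `p ≡ 1, 3 (mod 8)`, `p ≠ 3` (`p ≡ 1, 11, 17, 19 (mod 24)`):
if `p = c^2 + 2 d^2` with `c ≡ 1 (mod 4)`, then `S_1 ≡ ε_p S_2 ≡ R(p) (mod p^2)`. -/
def Posed (p : ℕ) : Prop :=
  ∀ c d : ℤ, (p : ℤ) = c ^ 2 + 2 * d ^ 2 → c % 4 = 1 →
    Cong p 2 (S1 p) (R p c d) ∧ Cong p 2 (eps p * S2 p) (R p c d)

/-- Q1 is false: it fails for `p = 11 = (-3)^2 + 2 * 1^2`. -/
theorem result : ¬ ∀ p : ℕ, p.Prime → p ≠ 3 → (p % 8 = 1 ∨ p % 8 = 3) → Posed p := by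
  intro h
  have h7 := (h 11 (by norm_num) (by norm_num) (by norm_num) (-3) 1 (by norm_num) (by norm_num)).1
  refine not_cong (by norm_num) ?_ h7
  have e : R 11 (-3) 1 = (10 - 5 * 11 / 4) := by
    unfold R legQ
    have e1 : (2 + ((-3 : ℤ) : ℚ) / ((1 : ℤ) : ℚ)) = -1 := by norm_num
    rw [e1]
    have e2 : ((-1 : ℚ).num * ((-1 : ℚ).den : ℤ)) = -1 := by norm_num
    rw [e2]
    have e3 : jacobiSym (-1) 11 = -1 := by norm_num
    rw [e3]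
    norm_num
  unfold S1
  rw [← (st_spec _ _ _ _).2, e]
  decide +kernel

end Pool.Agent.Results.MP_0a3b9a_nt.FailsAtEleven
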